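import Pool.Agent.OntoQ.Lower
import Pool.Agent.OntoQ.Upper

/-!
# MP_a24eb1_lc : polynomial calculus degree of onto-FPHP and the p-adic valuation of m - n

Over fields of characteristic `p` the degree of PC refutations of onto-FPHP with `m` pigeons and
`n` holes is large exactly when `n` is large and `m - n` is divisible by a large power of `p`:
explicit lower bound (a) and, for comparison, the upper bound (b).
-/

set_option autoImplicit false

namespace Pool.Agent.Results.MP_a24eb1_lc.DegreeAndValuation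

open MvPolynomial

/-- The axioms of onto-FPHP with `m` pigeons and `n` holes over `F`. -/
inductive IsAxiom (F : Type) [Field F] (m n : ℕ) : MvPolynomial (Fin m × Fin n) F → Prop
  | boolean (i : Fin m) (j : Fin n) : IsAxiom F m n (X (i, j) ^ 2 - X (i, j))
  | pigeon (i : Fin m) : IsAxiom F m n (1 - ∑ j : Fin n, X (i, j))
  | hole (i i' : Fin m) (j : Fin n) (h : i ≠ i') : IsAxiom F m n (X (i, j) * X (i', j))
  | functionality (i : Fin m) (j j' : Fin n) (h : j ≠ j') : IsAxiom F m n (X (i, j) * X (i, j'))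
  | onto (j : Fin n) : IsAxiom F m n (1 - ∑ i : Fin m, X (i, j))

/-- `l` is a PC derivation, written with its last line first: every line is an axiom, or a linear
combination of two earlier lines, or an earlier line multiplied by a variable. -/
def IsDerivation (F : Type) [Field F] (m n : ℕ) : List (MvPolynomial (Fin m × Fin n) F) → Prop
  | [] => True
  | f :: l => (IsAxiom F m n f ∨ (∃ g ∈ l, ∃ h ∈ l, ∃ a b : F, f = a • g + b • h) ∨
      ∃ g ∈ l, ∃ v : Fin m × Fin n, f = X v * g) ∧ IsDerivation F m n l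

/-- There is a PC refutation of onto-FPHP all of whose lines have total degree at most `d`. -/
def HasRefutation (F : Type) [Field F] (m n d : ℕ) : Prop :=
  ∃ l : List (MvPolynomial (Fin m × Fin n) F), IsDerivation F m n (1 :: l) ∧
    ∀ f ∈ 1 :: l, f.totalDegree ≤ d

section

variable {F : Type} [Field F] {m n : ℕ}

theorem isAxiom_iff (f : MvPolynomial (Fin m × Fin n) F) (h : IsAxiom F m n f) :
    Pool.Agent.OntoPHP.Ax (Fin m) (Fin n) F f := by
  cases h with
  | boolean i j => exact Or.inl ⟨(i, j), rfl⟩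
  | pigeon i => exact Or.inr (Or.inl ⟨i, rfl⟩)
  | hole i i' j h => exact Or.inr (Or.inr (Or.inr (Or.inl ⟨i, i', j, h, rfl⟩)))
  | functionality i j j' h => exact Or.inr (Or.inr (Or.inl ⟨i, j, j', h, rfl⟩))
  | onto j => exact Or.inr (Or.inr (Or.inr (Or.inr ⟨j, rfl⟩)))

/-- a closed subspace contains all lines -/
theorem lines_mem (V : Submodule F (MvPolynomial (Fin m × Fin n) F)) (d : ℕ)
    (h1 : ∀ f, IsAxiom F m n f → f ∈ V)
    (h2 : ∀ f ∈ V, ∀ v, (X v * f).totalDegree ≤ d → X v * f ∈ V) :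
    ∀ l, IsDerivation F m n l → (∀ f ∈ l, f.totalDegree ≤ d) → ∀ f ∈ l, f ∈ V := by
  intro l
  induction l with
  | nil => intro _ _ f hf; simp at hf
  | cons f l ih =>
    intro hl hd g hg
    obtain ⟨hf, hl⟩ := hl
    have ih' := ih hl (fun f hf => hd f (List.mem_cons_of_mem _ hf))
    rcases List.mem_cons.1 hg with rfl | hg
    · rcases hf with hf | ⟨g', hg', h, hh, a, b, rfl⟩ | ⟨g', hg', v, rfl⟩
      · exact h1 _ hf
      · exact Submodule.add_mem _ (Submodule.smul_mem _ _ (ih' _ hg'))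
          (Submodule.smul_mem _ _ (ih' _ hh))
      · exact h2 _ (ih' _ hg') v (hd _ List.mem_cons_self)
    · exact ih' g hg

theorem append_derivation (l l' : List (MvPolynomial (Fin m × Fin n) F))
    (hl : IsDerivation F m n l) (hl' : IsDerivation F m n l') : IsDerivation F m n (l ++ l') := by
  induction l with
  | nil => exact hl'
  | cons f l ih =>
    obtain ⟨hf, hl⟩ := hl
    refine ⟨?_, ih hl⟩
    rcases hf with hf | ⟨g, hg, h, hh, a, b, e⟩ | ⟨g, hg, v, e⟩
    · exact Or.inl hf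
    · exact Or.inr (Or.inl ⟨g, List.mem_append_left _ hg, h, List.mem_append_left _ hh, a, b, e⟩)
    · exact Or.inr (Or.inr ⟨g, List.mem_append_left _ hg, v, e⟩)

/-- derivable in degree `d` -/
def Dv (F : Type) [Field F] (m n d : ℕ) (f : MvPolynomial (Fin m × Fin n) F) : Prop :=
  ∃ l, IsDerivation F m n (f :: l) ∧ ∀ g ∈ f :: l, g.totalDegree ≤ d

theorem Dv.ax {d : ℕ} {f : MvPolynomial (Fin m × Fin n) F} (h : IsAxiom F m n f)
    (hd : f.totalDegree ≤ d) : Dv F m n d f :=
  ⟨[], ⟨Or.inl h, trivial⟩, by simpa using hd⟩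

theorem Dv.degree {d : ℕ} {f : MvPolynomial (Fin m × Fin n) F} (h : Dv F m n d f) :
    f.totalDegree ≤ d := by
  obtain ⟨l, -, h⟩ := h
  exact h f List.mem_cons_self

theorem Dv.comb {d : ℕ} {f g : MvPolynomial (Fin m × Fin n) F} (hf : Dv F m n d f)
    (hg : Dv F m n d g) (a b : F) : Dv F m n d (a • f + b • g) := by
  have h1 := hf.degree
  have h2 := hg.degree
  obtain ⟨l, hl, hld⟩ := hf
  obtain ⟨l', hl', hld'⟩ := hg
  refine ⟨(f :: l) ++ (g :: l'), ⟨Or.inr (Or.inl ⟨f, by simp, g, by simp, a, b, rfl⟩),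
    append_derivation _ _ hl hl'⟩, ?_⟩
  intro h hh
  rcases List.mem_cons.1 hh with rfl | hh
  · refine (totalDegree_add _ _).trans (max_le ?_ ?_)
    · exact (totalDegree_smul_le _ _).trans h1
    · exact (totalDegree_smul_le _ _).trans h2
  · rcases List.mem_append.1 hh with hh | hh
    · exact hld h hh
    · exact hld' h hh

theorem Dv.mulX {d : ℕ} {f : MvPolynomial (Fin m × Fin n) F} (hf : Dv F m n d f)
    (v : Fin m × Fin n) (hd : (X v * f).totalDegree ≤ d) : Dv F m n d (X v * f) := by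
  obtain ⟨l, hl, hld⟩ := hf
  refine ⟨f :: l, ⟨Or.inr (Or.inr ⟨f, List.mem_cons_self, v, rfl⟩), hl⟩, ?_⟩
  intro h hh
  rcases List.mem_cons.1 hh with rfl | hh
  · exact hd
  · exact hld h hh

/-- the derivable polynomials form a subspace -/
def DvSub (F : Type) [Field F] (m n d : ℕ) (f₀ : MvPolynomial (Fin m × Fin n) F)
    (h₀ : Dv F m n d f₀) : Submodule F (MvPolynomial (Fin m × Fin n) F) where
  carrier := {f | Dv F m n d f}
  add_mem' {a b} ha hb := by
    have := Dv.comb ha hb 1 1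
    simpa using this
  zero_mem' := by
    have := Dv.comb h₀ h₀ 0 0
    simpa using this
  smul_mem' c x hx := by
    have := Dv.comb hx hx c 0
    simpa using this

theorem degree_pigeon (i : Fin m) :
    (1 - ∑ j : Fin n, X (i, j) : MvPolynomial (Fin m × Fin n) F).totalDegree ≤ 1 := by
  refine (totalDegree_sub _ _).trans (max_le ?_ ?_)
  · rw [totalDegree_one]; omega
  · refine totalDegree_finsetSum_le fun v _ => ?_
    rw [totalDegree_X]

theorem degree_onto (j : Fin n) :
    (1 - ∑ i : Fin m, X (i, j) : MvPolynomial (Fin m × Fin n) F).totalDegree ≤ 1 := by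
  refine (totalDegree_sub _ _).trans (max_le ?_ ?_)
  · rw [totalDegree_one]; omega
  · refine totalDegree_finsetSum_le fun v _ => ?_
    rw [totalDegree_X]

theorem upper (p : ℕ) [Fact p.Prime] [CharP F p] (k : ℕ) (hnm : n ≤ m)
    (hk : ¬ p ^ (k + 1) ∣ m - n) : HasRefutation F m n (p ^ k) := by
  have hp : p.Prime := Fact.out
  have hmn : m - n ≠ 0 := fun h => hk (by rw [h]; exact dvd_zero _)
  obtain ⟨v, u, hu, he⟩ := Nat.exists_eq_pow_mul_and_not_dvd hmn p hp.ne_one
  have hv : v ≤ k := by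
    by_contra hcon
    exact hk (by rw [he]; exact Dvd.dvd.mul_right (pow_dvd_pow p (by omega)) u)
  have hm : m = n + p ^ v * u := by omega
  have hs1 : 1 ≤ p ^ v := Nat.one_le_pow _ _ hp.pos
  have hsk : p ^ v ≤ p ^ k := Nat.pow_le_pow_right hp.pos hv
  have hm0 : 0 < m := by omega
  have hax : Dv F m n (p ^ k) (1 - ∑ j : Fin n, X ((⟨0, hm0⟩ : Fin m), j)) :=
    Dv.ax (IsAxiom.pigeon _) ((degree_pigeon _).trans (hs1.trans hsk))
  let W := DvSub F m n (p ^ k) _ hax
  have hW : ∀ f ∈ W, ∀ v', (X v' * f).totalDegree ≤ p ^ v → X v' * f ∈ W :=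
    fun f hf v' hd => Dv.mulX hf v' (hd.trans hsk)
  have key := Pool.Agent.OntoQ.both W (p ^ v) hs1 hW (fun x : Fin m × Fin n => x.1)
    (fun x : Fin m × Fin n => x.2) ?_ ?_ ?_ ?_
  · rw [Fintype.card_fin, Fintype.card_fin] at key
    set c : F := ((m.choose (p ^ v) : ℕ) : F) - ((n.choose (p ^ v) : ℕ) : F) with hc
    have hc0 : c ≠ 0 := by
      have := Pool.Agent.OntoQ.choose_ne p F n v u hu
      rw [← hm] at this
      exact this
    have e : (1 : MvPolynomial (Fin m × Fin n) F) =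
        c⁻¹ • (((m.choose (p ^ v) : ℕ) : MvPolynomial (Fin m × Fin n) F) -
          ((n.choose (p ^ v) : ℕ) : MvPolynomial (Fin m × Fin n) F)) := by
      rw [smul_eq_C_mul]
      have e1 : (((m.choose (p ^ v) : ℕ) : MvPolynomial (Fin m × Fin n) F) -
          ((n.choose (p ^ v) : ℕ) : MvPolynomial (Fin m × Fin n) F)) = C c := by
        rw [hc, map_sub, map_natCast, map_natCast]
      rw [e1, ← C_mul, inv_mul_cancel₀ hc0, C_1]
    have h1 : Dv F m n (p ^ k) 1 := by
      rw [e]
      exact Submodule.smul_mem W _ key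
    exact h1
  · intro i
    have e : ∑ v ∈ Finset.univ.filter (fun v : Fin m × Fin n => v.1 = i),
        (X v : MvPolynomial (Fin m × Fin n) F) = ∑ j : Fin n, X (i, j) := by
      refine Finset.sum_bij' (fun v _ => v.2) (fun j _ => (i, j)) ?_ ?_ ?_ ?_ ?_
      · intro _ _; exact Finset.mem_univ _
      · intro j _; simp
      · rintro ⟨a, b⟩ h
        simp only [Finset.mem_filter] at h
        rw [h.2]
      · intro _ _; rfl
      · rintro ⟨a, b⟩ h
        simp only [Finset.mem_filter] at h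
        rw [h.2]
    rw [e]
    exact Dv.ax (IsAxiom.pigeon _) ((degree_pigeon _).trans (hs1.trans hsk))
  · intro j
    have e : ∑ v ∈ Finset.univ.filter (fun v : Fin m × Fin n => v.2 = j),
        (X v : MvPolynomial (Fin m × Fin n) F) = ∑ i : Fin m, X (i, j) := by
      refine Finset.sum_bij' (fun v _ => v.1) (fun i _ => (i, j)) ?_ ?_ ?_ ?_ ?_
      · intro _ _; exact Finset.mem_univ _
      · intro j _; simp
      · rintro ⟨a, b⟩ h
        simp only [Finset.mem_filter] at h
        rw [h.2]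
      · intro _ _; rfl
      · rintro ⟨a, b⟩ h
        simp only [Finset.mem_filter] at h
        rw [h.2]
    rw [e]
    exact Dv.ax (IsAxiom.onto _) ((degree_onto _).trans (hs1.trans hsk))
  · rintro ⟨i, j⟩ ⟨i', j'⟩ hne h hs2
    simp only at h
    subst h
    refine Dv.ax (IsAxiom.functionality i j j' (fun h => hne (by rw [h]))) ?_
    refine (totalDegree_mul _ _).trans ?_
    rw [totalDegree_X, totalDegree_X]
    omega
  · rintro ⟨i, j⟩ ⟨i', j'⟩ hne h hs2
    simp only at h
    subst h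
    refine Dv.ax (IsAxiom.hole i i' j (fun h => hne (by rw [h]))) ?_
    refine (totalDegree_mul _ _).trans ?_
    rw [totalDegree_X, totalDegree_X]
    omega

theorem lower (p : ℕ) [Fact p.Prime] [CharP F p] (d : ℕ) (hd : 2 ≤ d) (hnm : n ≤ m)
    (h1 : (p + 2) ^ ((48 * d ^ 3) ^ (2 * d)) ≤ n) (h2 : p ^ ((48 * d ^ 3) ^ (2 * d)) ∣ m - n) :
    ¬ HasRefutation F m n d := by
  have hp : p.Prime := Fact.out
  set M := (48 * d ^ 3) ^ (2 * d) with hM
  have hL := Pool.Agent.OntoPHP.exponent_bound d hd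
  have hN := Pool.Agent.OntoPHP.NN_bound d hd
  rw [← hM] at hL hN
  obtain ⟨c, hc⟩ := (pow_dvd_pow p hL).trans h2
  have hMn : M ≤ (p + 2) ^ M := (Nat.lt_pow_self (by omega)).le
  have hDT := Pool.Agent.OntoPHP.DT_lt p (Pool.Agent.OntoPHP.LL (d * 2) 0 + 1)
  have hpw : (p + 2) ^ (Pool.Agent.OntoPHP.LL (d * 2) 0 + 1) ≤ (p + 2) ^ M :=
    Nat.pow_le_pow_right (by omega) hL
  obtain ⟨k, hst, hk⟩ := Pool.Agent.OntoPHP.main_explicit p hp.one_le d hd m n c (by omega)
    (by omega) (by omega) F (CharP.cast_eq_zero F p)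
  rintro ⟨l, hl, hld⟩
  apply hk
  refine lines_mem (Pool.Agent.OntoPHP.Vc (Fin m) (Fin n) F d k) d ?_ ?_ (1 :: l) hl hld 1
    List.mem_cons_self
  · intro f hf
    exact Pool.Agent.OntoPHP.Vc_mono d (Nat.zero_le k) (Submodule.subset_span (isAxiom_iff f hf))
  · intro f hf v hdeg
    rw [hst]
    exact Submodule.mem_sup_right (Submodule.subset_span ⟨f, hf, v, hdeg, rfl⟩)

end

theorem result (p : ℕ) (hp : p.Prime) (F : Type) [Field F] [CharP F p] (m n : ℕ) (hnm : n ≤ m) :
    (∀ d : ℕ, 2 ≤ d → (p + 2) ^ ((48 * d ^ 3) ^ (2 * d)) ≤ n →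
      p ^ ((48 * d ^ 3) ^ (2 * d)) ∣ m - n → ¬ HasRefutation F m n d) ∧
    ∀ k : ℕ, ¬ p ^ (k + 1) ∣ m - n → HasRefutation F m n (p ^ k) := by
  have : Fact p.Prime := ⟨hp⟩
  exact ⟨fun d hd h1 h2 => lower p d hd hnm h1 h2, fun k hk => upper p k hnm hk⟩

end Pool.Agent.Results.MP_a24eb1_lc.DegreeAndValuation
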